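import Pool.Agent.Helper30.SY.St2

/-!
# Project SY, module FAS: an order of a tournament with few backward pairs
-/

set_option autoImplicit false

namespace Pool.Agent.Helper89.SY

open Finset Pool.Agent.Helper30.SY

/-- outdegree in `S` -/
private def od {n : ℕ} (r : Fin n → Fin n → ℤ) (S : Finset (Fin n)) (x : Fin n) : ℕ :=
  (S.filter fun y => r x y = 1).card

/-- indegree in `S` -/
private def id' {n : ℕ} (r : Fin n → Fin n → ℤ) (S : Finset (Fin n)) (x : Fin n) : ℕ :=
  (S.filter fun y => r y x = 1).card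

/-- cyclic triangles through `v` -/
private def cv {n : ℕ} (r : Fin n → Fin n → ℤ) (S : Finset (Fin n)) (v : Fin n) : ℕ :=
  ((S ×ˢ S).filter fun q => r v q.1 = 1 ∧ r q.1 q.2 = 1 ∧ r q.2 v = 1).card

private theorem diag {n : ℕ} {r : Fin n → Fin n → ℤ} (ha : ∀ x y, r x y = - r y x) (x : Fin n) :
    r x x = 0 := by
  have := ha x x
  omega

private theorem split {n : ℕ} {r : Fin n → Fin n → ℤ} (ha : ∀ x y, r x y = - r y x)
    (ht : ∀ x y, x ≠ y → r x y = 1 ∨ r x y = -1) {L : Finset (Fin n)} {x : Fin n} (hx : x ∈ L) :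
    od r L x + id' r L x + 1 = L.card := by
  have h1 : (L.filter fun y => ¬ r x y = 1) = insert x (L.filter fun y => r y x = 1) := by
    ext y
    simp only [mem_filter, mem_insert]
    constructor
    · rintro ⟨h2, h3⟩
      by_cases h : y = x
      · exact Or.inl h
      · rcases ht y x h with h4 | h4
        · exact Or.inr ⟨h2, h4⟩
        · exact absurd (by rw [ha x y, h4, neg_neg]) h3
    · rintro (rfl | ⟨h2, h3⟩)
      · exact ⟨hx, by rw [diag ha]; norm_num⟩
      · refine ⟨h2, ?_⟩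
        rw [ha x y, h3]
        norm_num
  have h2 := L.card_filter_add_card_filter_not (fun y => r x y = 1)
  rw [h1, card_insert_of_notMem (by simp [diag ha])] at h2
  unfold od id'
  omega

private theorem sum_deg {n : ℕ} (r : Fin n → Fin n → ℤ) (L : Finset (Fin n)) :
    ∑ x ∈ L, od r L x = ∑ x ∈ L, id' r L x := by
  unfold od id'
  simp only [card_filter]
  rw [sum_comm]

private theorem big {n : ℕ} {r : Fin n → Fin n → ℤ} (ha : ∀ x y, r x y = - r y x)
    (ht : ∀ x y, x ≠ y → r x y = 1 ∨ r x y = -1) {L : Finset (Fin n)} (hL : L.Nonempty) :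
    ∃ x ∈ L, L.card ≤ 2 * od r L x + 1 := by
  by_contra hn
  push Not at hn
  have h1 : ∑ x ∈ L, (2 * od r L x + 1) < ∑ x ∈ L, L.card := sum_lt_sum_of_nonempty hL hn
  have h2 : ∑ x ∈ L, (od r L x + id' r L x + 1) = ∑ x ∈ L, L.card :=
    sum_congr rfl fun x hx => split ha ht hx
  have h3 : ∑ x ∈ L, (2 * od r L x + 1) = ∑ x ∈ L, (od r L x + id' r L x + 1) := by
    rw [sum_add_distrib, sum_add_distrib, sum_add_distrib, ← sum_deg, ← mul_sum]
    ring
  omega

private theorem low {n : ℕ} {r : Fin n → Fin n → ℤ} (ha : ∀ x y, r x y = - r y x)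
    (ht : ∀ x y, x ≠ y → r x y = 1 ∨ r x y = -1) (S : Finset (Fin n)) :
    4 * (S.filter fun x => 8 * od r S x < S.card).card ≤ S.card + 3 := by
  rcases (S.filter fun x => 8 * od r S x < S.card).eq_empty_or_nonempty with h | h
  · rw [h, card_empty]
    omega
  · obtain ⟨x, hx, h1⟩ := big ha ht h
    have h2 : od r (S.filter fun x => 8 * od r S x < S.card) x ≤ od r S x :=
      card_le_card (filter_subset_filter _ (filter_subset _ _))
    have h3 := (mem_filter.1 hx).2
    omega

private theorem low' {n : ℕ} {r : Fin n → Fin n → ℤ} (ha : ∀ x y, r x y = - r y x)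
    (ht : ∀ x y, x ≠ y → r x y = 1 ∨ r x y = -1) (S : Finset (Fin n)) :
    4 * (S.filter fun x => 8 * id' r S x < S.card).card ≤ S.card + 3 :=
  low (r := fun x y => r y x) (fun x y => ha y x) (fun x y h => ht y x (Ne.symm h)) S

private theorem c3_sum {n : ℕ} (r : Fin n → Fin n → ℤ) (S : Finset (Fin n)) :
    c3 r S = ∑ v ∈ S, cv r S v := by
  unfold c3 cv
  simp only [card_filter]
  rw [sum_product]

private theorem pivot {n : ℕ} {r : Fin n → Fin n → ℤ} (ha : ∀ x y, r x y = - r y x)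
    (ht : ∀ x y, x ≠ y → r x y = 1 ∨ r x y = -1) (S : Finset (Fin n)) (hS : 6 ≤ S.card) :
    ∃ v ∈ S, S.card ≤ 8 * od r S v ∧ S.card ≤ 8 * id' r S v ∧ S.card * cv r S v ≤ 6 * c3 r S := by
  set G := S.filter fun x => S.card ≤ 8 * od r S x ∧ S.card ≤ 8 * id' r S x with hG
  have h1 : S ⊆ G ∪ ((S.filter fun x => 8 * od r S x < S.card) ∪
      (S.filter fun x => 8 * id' r S x < S.card)) := by
    intro x hx
    simp only [hG, mem_union, mem_filter]
    by_cases h2 : 8 * od r S x < S.card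
    · exact Or.inr (Or.inl ⟨hx, h2⟩)
    · by_cases h3 : 8 * id' r S x < S.card
      · exact Or.inr (Or.inr ⟨hx, h3⟩)
      · exact Or.inl ⟨hx, not_lt.1 h2, not_lt.1 h3⟩
  have h2 : S.card ≤ G.card + ((S.filter fun x => 8 * od r S x < S.card).card +
      (S.filter fun x => 8 * id' r S x < S.card).card) :=
    (card_le_card h1).trans ((card_union_le _ _).trans
      (Nat.add_le_add_left (card_union_le _ _) _))
  have h3 := low ha ht S
  have h4 := low' ha ht S
  have h5 : S.card ≤ 6 * G.card := by omega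
  have h6 : G.Nonempty := by
    rw [← card_pos]
    omega
  obtain ⟨v, hv, hmin⟩ := exists_min_image G (fun v => cv r S v) h6
  have hv' := mem_filter.1 hv
  refine ⟨v, hv'.1, hv'.2.1, hv'.2.2, ?_⟩
  have h7 : G.card * cv r S v ≤ c3 r S := by
    rw [c3_sum]
    calc G.card * cv r S v ≤ ∑ w ∈ G, cv r S w := by
          rw [← smul_eq_mul]
          exact card_nsmul_le_sum _ _ _ hmin
      _ ≤ ∑ w ∈ S, cv r S w := sum_le_sum_of_subset (filter_subset _ _)
  calc S.card * cv r S v ≤ 6 * G.card * cv r S v := Nat.mul_le_mul_right _ h5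
    _ = 6 * (G.card * cv r S v) := by ring
    _ ≤ 6 * c3 r S := Nat.mul_le_mul_left _ h7

private theorem base {n : ℕ} (r : Fin n → Fin n → ℤ) (h : ℝ) (l : ℕ) (S : Finset (Fin n))
    (hh : 6 ≤ h) (hS : (S.card : ℝ) ≤ h) :
    ∃ ρ : Fin n → ℕ, (∀ x ∈ S, ∀ y ∈ S, ρ x = ρ y → x = y) ∧
      (bw r S ρ : ℝ) ≤ S.card * h + 9 * l * c3 r S / h := by
  refine ⟨Fin.val, fun x _ y _ hxy => Fin.ext hxy, ?_⟩
  have h1 : bw r S Fin.val ≤ S.card * S.card := by
    unfold bw
    exact (card_filter_le _ _).trans (card_product _ _).le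
  have h2 : (bw r S Fin.val : ℝ) ≤ S.card * S.card := by exact_mod_cast h1
  have h3 : (S.card : ℝ) * S.card ≤ S.card * h := mul_le_mul_of_nonneg_left hS (Nat.cast_nonneg _)
  have h4 : 0 ≤ 9 * (l : ℝ) * c3 r S / h := by positivity
  linarith

private theorem c3_add {n : ℕ} (r : Fin n → Fin n → ℤ) {S S1 S2 : Finset (Fin n)} (h1 : S1 ⊆ S)
    (h2 : S2 ⊆ S) (hd : Disjoint S1 S2) : c3 r S1 + c3 r S2 ≤ c3 r S := by
  unfold c3
  rw [← card_union_of_disjoint]
  · refine card_le_card ?_
    intro p hp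
    simp only [mem_union, mem_filter, mem_product] at hp ⊢
    rcases hp with ⟨⟨a, b, c⟩, h⟩ | ⟨⟨a, b, c⟩, h⟩
    · exact ⟨⟨h1 a, h1 b, h1 c⟩, h⟩
    · exact ⟨⟨h2 a, h2 b, h2 c⟩, h⟩
  · rw [disjoint_left]
    intro p hp hp'
    simp only [mem_filter, mem_product] at hp hp'
    exact disjoint_left.1 hd hp.1.1 hp'.1.1

private theorem glue {n : ℕ} {r : Fin n → Fin n → ℤ} (ha : ∀ x y, r x y = - r y x)
    (ht : ∀ x y, x ≠ y → r x y = 1 ∨ r x y = -1) (S : Finset (Fin n)) (v : Fin n)
    (ρ1 ρ2 : Fin n → ℕ)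
    (hi1 : ∀ x ∈ S.filter (fun x => r x v = 1), ∀ y ∈ S.filter (fun x => r x v = 1),
      ρ1 x = ρ1 y → x = y)
    (hi2 : ∀ x ∈ S.filter (fun x => r v x = 1), ∀ y ∈ S.filter (fun x => r v x = 1),
      ρ2 x = ρ2 y → x = y) :
    ∃ ρ : Fin n → ℕ, (∀ x ∈ S, ∀ y ∈ S, ρ x = ρ y → x = y) ∧
      bw r S ρ ≤ bw r (S.filter fun x => r x v = 1) ρ1 + bw r (S.filter fun x => r v x = 1) ρ2 +
        cv r S v := by
  obtain ⟨M, hM⟩ : ∃ M : ℕ, ∀ x ∈ S.filter (fun x => r x v = 1), ρ1 x < M :=
    ⟨(S.filter fun x => r x v = 1).sup ρ1 + 1, fun x hx => Nat.lt_succ_of_le (le_sup hx)⟩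
  obtain ⟨ρ, hρ⟩ : ∃ ρ : Fin n → ℕ, ∀ x, ρ x = if r x v = 1 then ρ1 x else
    if x = v then M else M + 1 + ρ2 x := ⟨_, fun x => rfl⟩
  have e1 : ∀ x, r x v = 1 → ρ x = ρ1 x := fun x hx => by rw [hρ, if_pos hx]
  have ev : ρ v = M := by
    rw [hρ, if_neg (by rw [diag ha]; norm_num), if_pos rfl]
  have e2 : ∀ x, r v x = 1 → ρ x = M + 1 + ρ2 x := fun x hx => by
    rw [hρ, if_neg (by rw [ha, hx]; norm_num), if_neg]
    rintro rfl
    rw [diag ha] at hx
    norm_num at hx
  have tri : ∀ x, r x v = 1 ∨ x = v ∨ r v x = 1 := by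
    intro x
    by_cases h : x = v
    · exact Or.inr (Or.inl h)
    · rcases ht x v h with h1 | h1
      · exact Or.inl h1
      · exact Or.inr (Or.inr (by rw [ha, h1, neg_neg]))
  have m1 : ∀ x ∈ S, r x v = 1 → x ∈ S.filter (fun x => r x v = 1) :=
    fun x hx h => mem_filter.2 ⟨hx, h⟩
  have m2 : ∀ x ∈ S, r v x = 1 → x ∈ S.filter (fun x => r v x = 1) :=
    fun x hx h => mem_filter.2 ⟨hx, h⟩
  refine ⟨ρ, ?_, ?_⟩
  · intro x hx y hy hxy
    rcases tri x with h1 | rfl | h1 <;> rcases tri y with h2 | h2 | h2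
    · rw [e1 x h1, e1 y h2] at hxy
      exact hi1 x (m1 x hx h1) y (m1 y hy h2) hxy
    · subst h2
      rw [e1 x h1, ev] at hxy
      exact absurd hxy (hM x (m1 x hx h1)).ne
    · rw [e1 x h1, e2 y h2] at hxy
      have := hM x (m1 x hx h1)
      omega
    · rw [ev, e1 y h2] at hxy
      exact absurd hxy (hM y (m1 y hy h2)).ne'
    · exact h2.symm
    · rw [ev, e2 y h2] at hxy
      omega
    · rw [e2 x h1, e1 y h2] at hxy
      have := hM y (m1 y hy h2)
      omega
    · subst h2
      rw [e2 x h1, ev] at hxy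
      omega
    · rw [e2 x h1, e2 y h2] at hxy
      exact hi2 x (m2 x hx h1) y (m2 y hy h2) (by omega)
  · have hsub : ((S ×ˢ S).filter fun p => ρ p.1 < ρ p.2 ∧ r p.1 p.2 ≠ 1) ⊆
        ((((S.filter fun x => r x v = 1) ×ˢ (S.filter fun x => r x v = 1)).filter
            fun p => ρ1 p.1 < ρ1 p.2 ∧ r p.1 p.2 ≠ 1) ∪
          (((S.filter fun x => r v x = 1) ×ˢ (S.filter fun x => r v x = 1)).filter
            fun p => ρ2 p.1 < ρ2 p.2 ∧ r p.1 p.2 ≠ 1)) ∪
        (((S ×ˢ S).filter fun q => r v q.1 = 1 ∧ r q.1 q.2 = 1 ∧ r q.2 v = 1).image Prod.swap) := by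
      rintro ⟨x, y⟩ hp
      simp only [mem_filter, mem_product] at hp
      obtain ⟨⟨hx, hy⟩, h3, h4⟩ := hp
      simp only [mem_union]
      rcases tri x with h1 | rfl | h1 <;> rcases tri y with h2 | h2 | h2
      · refine Or.inl (Or.inl (mem_filter.2 ⟨mem_product.2 ⟨m1 x hx h1, m1 y hy h2⟩, ?_, h4⟩))
        rw [e1 x h1, e1 y h2] at h3
        exact h3
      · subst h2
        exact absurd h1 h4
      · refine Or.inr (mem_image.2 ⟨(y, x), mem_filter.2 ⟨mem_product.2 ⟨hy, hx⟩, h2, ?_, h1⟩, rfl⟩)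
        have hxy : x ≠ y := by
          rintro rfl
          rw [ha, h2] at h1
          norm_num at h1
        rcases ht x y hxy with h5 | h5
        · exact absurd h5 h4
        · show r y x = 1
          rw [ha, h5, neg_neg]
      · exfalso
        rw [ev, e1 y h2] at h3
        have := hM y (m1 y hy h2)
        omega
      · exfalso
        rw [h2] at h3
        exact lt_irrefl _ h3
      · exact absurd h2 h4
      · exfalso
        rw [e2 x h1, e1 y h2] at h3
        have := hM y (m1 y hy h2)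
        omega
      · exfalso
        subst h2
        rw [e2 x h1, ev] at h3
        omega
      · refine Or.inl (Or.inr (mem_filter.2 ⟨mem_product.2 ⟨m2 x hx h1, m2 y hy h2⟩, ?_, h4⟩))
        rw [e2 x h1, e2 y h2] at h3
        show ρ2 x < ρ2 y
        omega
    exact (card_le_card hsub).trans ((card_union_le _ _).trans
      (Nat.add_le_add (card_union_le _ _) card_image_le))

/-- MODULE FAS. -/
theorem hFAS : StFAS := by
  intro n r h l S ha ht hh hS
  induction l generalizing S with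
  | zero =>
    rw [pow_zero, one_mul] at hS
    exact base r h 0 S hh hS
  | succ l ih =>
    by_cases hSh : (S.card : ℝ) ≤ h
    · exact base r h (l + 1) S hh hSh
    · rw [not_le] at hSh
      have h6 : 6 ≤ S.card := by
        have : (6 : ℝ) ≤ S.card := hh.trans hSh.le
        exact_mod_cast this
      obtain ⟨v, hv, ho, hi, hc⟩ := pivot ha ht S h6
      have hsp := split ha ht hv
      have c1 : id' r S v = (S.filter fun x => r x v = 1).card := rfl
      have c2 : od r S v = (S.filter fun x => r v x = 1).card := rfl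
      rw [c1] at hi hsp
      rw [c2] at ho hsp
      have hp : (8 / 7 : ℝ) ^ (l + 1) * h = 8 / 7 * ((8 / 7 : ℝ) ^ l * h) := by ring
      rw [hp] at hS
      have b1 : (((S.filter fun x => r x v = 1).card : ℕ) : ℝ) ≤ (8 / 7 : ℝ) ^ l * h := by
        have : 8 * (S.filter fun x => r x v = 1).card ≤ 7 * S.card := by omega
        have : (8 : ℝ) * (S.filter fun x => r x v = 1).card ≤ 7 * S.card := by exact_mod_cast this
        linarith
      have b2 : (((S.filter fun x => r v x = 1).card : ℕ) : ℝ) ≤ (8 / 7 : ℝ) ^ l * h := by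
        have : 8 * (S.filter fun x => r v x = 1).card ≤ 7 * S.card := by omega
        have : (8 : ℝ) * (S.filter fun x => r v x = 1).card ≤ 7 * S.card := by exact_mod_cast this
        linarith
      obtain ⟨ρ1, i1, w1⟩ := ih _ b1
      obtain ⟨ρ2, i2, w2⟩ := ih _ b2
      obtain ⟨ρ, i3, w3⟩ := glue ha ht S v ρ1 ρ2 i1 i2
      refine ⟨ρ, i3, ?_⟩
      have hd : Disjoint (S.filter fun x => r x v = 1) (S.filter fun x => r v x = 1) := by
        rw [disjoint_left]
        intro x hx hx'
        have h1 := (mem_filter.1 hx).2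
        have h2 := (mem_filter.1 hx').2
        rw [ha, h2] at h1
        norm_num at h1
      have hcc := c3_add r (filter_subset (fun x => r x v = 1) S)
        (filter_subset (fun x => r v x = 1) S) hd
      have h0 : 0 < h := by linarith
      have hccr : (c3 r (S.filter fun x => r x v = 1) : ℝ) + c3 r (S.filter fun x => r v x = 1) ≤
          c3 r S := by exact_mod_cast hcc
      have w3r : (bw r S ρ : ℝ) ≤ bw r (S.filter fun x => r x v = 1) ρ1 +
          bw r (S.filter fun x => r v x = 1) ρ2 + cv r S v := by exact_mod_cast w3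
      have hcr : (S.card : ℝ) * cv r S v ≤ 6 * c3 r S := by exact_mod_cast hc
      have hcv : (cv r S v : ℝ) ≤ 6 * c3 r S / h := by
        rw [le_div_iff₀ h0]
        have : h * (cv r S v : ℝ) ≤ S.card * cv r S v :=
          mul_le_mul_of_nonneg_right hSh.le (Nat.cast_nonneg _)
        linarith
      have hspr : ((S.filter fun x => r v x = 1).card : ℝ) + (S.filter fun x => r x v = 1).card + 1 =
          S.card := by exact_mod_cast hsp
      have hl : 9 * (l : ℝ) * (c3 r (S.filter fun x => r x v = 1) : ℝ) / h +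
          9 * (l : ℝ) * (c3 r (S.filter fun x => r v x = 1) : ℝ) / h ≤
          9 * (l : ℝ) * c3 r S / h := by
        rw [← add_div, ← mul_add]
        gcongr
      have hl1 : 9 * ((l + 1 : ℕ) : ℝ) * c3 r S / h = 9 * (l : ℝ) * c3 r S / h + 6 * c3 r S / h +
          3 * c3 r S / h := by
        push_cast
        ring
      have hl2 : 0 ≤ 3 * (c3 r S : ℝ) / h := by positivity
      rw [hl1]
      have hm : (S.card : ℝ) * h = ((S.filter fun x => r x v = 1).card : ℝ) * h +
          ((S.filter fun x => r v x = 1).card : ℝ) * h + h := by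
        rw [← hspr]
        ring
      rw [hm]
      linarith

end Pool.Agent.Helper89.SY
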